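import Pool.Agent.Q27.GT.Strat

/-!
# Spaces all of whose stabilizers belong to a finite family
-/

namespace Pool.Agent.Q27.GT

open Topology Set Filter
open Pool.Agent.Q27.GS

variable {G : Type} [Group G] [TopologicalSpace G]

theorem bc_empty {BC : GSp G → Prop} (h : IsBC BC) (A : GSp G) (hA : IsEmpty A.X) : BC A := by
  let P : GSp G :=
    { X := PUnit
      act := { smul := fun _ x => x, one_smul := fun _ => rfl, mul_smul := fun _ _ _ => rfl }
      cont := ⟨continuous_snd⟩ }
  refine h.piece A P (fun _ => PUnit.unit) ?_ ?_ (fun _ x => (hA.false x).elim)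
    (h.point P ⟨PUnit.unit⟩ ⟨fun _ _ => rfl⟩)
  · exact continuous_const.isClosedEmbedding (fun x => (hA.false x).elim)
  · exact .of_isEmpty _

variable [IsTopologicalGroup G] [LocallyCompactSpace G] [SecondCountableTopology G]

/-- The stabilizer of some point of the orbit of `x` is `P`. -/
def HasStabilizer (P : Subgroup G) (X : GSp G) (x : X.X) : Prop :=
  ∃ g : G, ∀ h : G, h • (g⁻¹ • x) = g⁻¹ • x ↔ h ∈ P

theorem family {BC : GSp G → Prop} (hBC : IsBC BC) {k : ℕ} (P : Fin k → Subgroup G)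
    (hP : ∀ i, IsClosed (P i : Set G)) (hcpt : ∀ i, CompactSpace (G ⧸ P i))
    (hself : ∀ i (g : G), (∀ p ∈ P i, g * p * g⁻¹ ∈ P i) → g ∈ P i)
    (hord : ∀ i j (g : G), (∀ p ∈ P i, g * p * g⁻¹ ∈ P j) → j ≤ i)
    (hb : ∀ i (Y : Type) [TopologicalSpace Y] [LocallyCompactSpace Y] [T2Space Y]
      [SecondCountableTopology Y], BC (coset (P i) (hP i) Y))
    (X : GSp G) (hX : ∀ x : X.X, ∃ i, HasStabilizer (P i) X x) : BC X := by
  classical
  let E : ℕ → Set X.X := fun m => ⋃ i ∈ {i : Fin k | i.1 < m}, FixG (P i) X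
  have hE : ∀ m, IsClosed (E m) := fun m =>
    (Set.toFinite _).isClosed_biUnion fun i _ => FixG_closed (P i) X
  have hmem : ∀ m x, x ∈ E m ↔ ∃ i : Fin k, i.1 < m ∧ x ∈ FixG (P i) X := fun m x => by
    simp [E]
  have hEi : ∀ m (g : G) (x : X.X), x ∈ E m → g • x ∈ E m := by
    intro m g x hx
    rw [hmem] at hx ⊢
    obtain ⟨i, hi, hx⟩ := hx
    exact ⟨i, hi, FixG_inv (P i) X g x hx⟩
  have hfix : ∀ i x, HasStabilizer (P i) X x → x ∈ FixG (P i) X := by
    rintro i x ⟨g, hg⟩
    exact ⟨g, fun h hh => (hg h).mpr hh⟩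
  have key : ∀ m, m ≤ k → BC (X.sub (E m) (hE m) (hEi m)) := by
    intro m
    induction m with
    | zero =>
      intro _
      refine bc_empty hBC _ ⟨fun x => ?_⟩
      have := (hmem 0 x.1).mp x.2
      obtain ⟨i, hi, -⟩ := this
      exact absurd hi (Nat.not_lt_zero _)
    | succ m ih =>
      intro hm
      have hmk : m < k := hm
      have hZ := ih hmk.le
      have hst : ∀ x ∈ E (m + 1), x ∉ E m →
          ∃ g : G, ∀ h : G, h • (g⁻¹ • x) = g⁻¹ • x ↔ h ∈ P ⟨m, hmk⟩ := by
        intro x hx hx'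
        obtain ⟨i, hi, g', hg'⟩ := (hmem (m + 1) x).mp hx
        have him : i.1 = m := by
          by_contra hne
          exact hx' ((hmem m x).mpr ⟨i, by omega, g', hg'⟩)
        obtain ⟨l, hl⟩ := hX x
        have hlm : m ≤ l.1 := by
          by_contra hlt
          exact hx' ((hmem m x).mpr ⟨l, by omega, hfix l x hl⟩)
        obtain ⟨g, hg⟩ := hl
        have hle : l ≤ i := by
          refine hord i l (g⁻¹ * g') fun p hp => (hg _).mp ?_
          have h1 : (g⁻¹ * g')⁻¹ • g⁻¹ • x = g'⁻¹ • x := by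
            rw [smul_smul]; congr 1; group
          rw [mul_smul, h1, mul_smul, hg' p hp, smul_smul]
          congr 1; group
        have hli : l = ⟨m, hmk⟩ := Fin.ext (by
          have : l.1 ≤ i.1 := hle
          change l.1 = m
          omega)
        exact ⟨g, by rw [← hli]; exact hg⟩
      have := hcpt ⟨m, hmk⟩
      obtain ⟨Y, _, _, _, _, j, hj, hje, hjr⟩ := exists_stratum (P ⟨m, hmk⟩) (hP _)
        (hself ⟨m, hmk⟩) X (E (m + 1)) (E m) (hE _) (hEi _) (hE _) (hEi _) hst
      have hsub : E m ⊆ E (m + 1) := by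
        intro x hx
        rw [hmem] at hx ⊢
        obtain ⟨i, hi, hx⟩ := hx
        exact ⟨i, by omega, hx⟩
      let i : (X.sub (E m) (hE m) (hEi m)).X → (X.sub (E (m + 1)) (hE _) (hEi _)).X :=
        fun x => ⟨x.1, hsub x.2⟩
      have hic : Continuous i := continuous_subtype_val.subtype_mk _
      have hir : range i = {w | w.1 ∈ E m} := by
        ext w
        constructor
        · rintro ⟨x, rfl⟩
          exact x.2
        · intro hw
          exact ⟨⟨w.1, hw⟩, rfl⟩
      have hicl : IsClosed (range i) := by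
        rw [hir]
        exact (hE m).preimage continuous_subtype_val
      have hie : IsClosedEmbedding i :=
        ⟨IsEmbedding.of_comp hic (g := Subtype.val) continuous_subtype_val .subtypeVal, hicl⟩
      refine (hBC.excision _ _ _ i j hie hj (fun _ _ => rfl) hje ?_).2.1 hZ
        (hb ⟨m, hmk⟩ Y)
      rw [hjr, hir]
      rfl
  have huniv : ∀ x : X.X, x ∈ E k := fun x => by
    obtain ⟨i, hi⟩ := hX x
    exact (hmem k x).mpr ⟨i, i.2, hfix i x hi⟩
  let f : X.X → (X.sub (E k) (hE k) (hEi k)).X := fun x => ⟨x, huniv x⟩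
  have hfc : Continuous f := continuous_id.subtype_mk _
  have hfe : IsEmbedding f :=
    IsEmbedding.of_comp hfc (g := Subtype.val) continuous_subtype_val .id
  have hfr : range f = univ := by
    rw [eq_univ_iff_forall]
    exact fun w => ⟨w.1, rfl⟩
  have hf1 : IsClosed (range f) := by rw [hfr]; exact isClosed_univ
  have hf2 : IsOpen (range f) := by rw [hfr]; exact isOpen_univ
  exact hBC.piece X _ f ⟨hfe, hf1⟩ ⟨hfe, hf2⟩ (fun _ _ => rfl) (key k le_rfl)

end Pool.Agent.Q27.GT
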