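import Pool.Agent.Q27.GT.Str

/-!
# Spaces all of whose stabilizers belong to a finite family, finite normalizer quotients
-/

namespace Pool.Agent.Q27.GT

open Topology Set Filter
open Pool.Agent.Q27.GS

variable {G : Type} [Group G] [TopologicalSpace G]
variable [IsTopologicalGroup G] [LocallyCompactSpace G] [SecondCountableTopology G]

theorem family_fin {BC : GSp G → Prop} (hBC : IsBC BC) (hun : Unions BC) {k : ℕ}
    (P : Fin k → Subgroup G)
    (hP : ∀ i, IsClosed (P i : Set G)) (hcpt : ∀ i, CompactSpace (G ⧸ P i))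
    (hstrict : ∀ i (g : G), (∀ p ∈ P i, g * p * g⁻¹ ∈ P i) → ∀ p ∈ P i, g⁻¹ * p * g ∈ P i)
    (hfin : ∀ i, ∃ R : Finset G, ∀ g : G, (∀ p ∈ P i, g * p * g⁻¹ ∈ P i) →
      ∃ r ∈ R, r⁻¹ * g ∈ P i)
    (hord : ∀ i j (g : G), (∀ p ∈ P i, g * p * g⁻¹ ∈ P j) → j ≤ i)
    (hb : ∀ i (Y : Type) [TopologicalSpace Y] [LocallyCompactSpace Y] [T2Space Y]
      [SecondCountableTopology Y], BC (coset (P i) (hP i) Y))
    (X : GSp G) (hX : ∀ x : X.X, ∃ i, HasStabilizer (P i) X x) : BC X := by
  classical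
  let E : ℕ → Set X.X := fun m => ⋃ i ∈ {i : Fin k | i.1 < m}, FixG (P i) X
  have hE : ∀ m, IsClosed (E m) := fun m =>
    (Set.toFinite _).isClosed_biUnion fun i _ => FixG_closed (P i) X
  have hmem : ∀ m x, x ∈ E m ↔ ∃ i : Fin k, i.1 < m ∧ x ∈ FixG (P i) X := fun m x => by
    simp [E]
  have hEi : ∀ m (g : G) (x : X.X), x ∈ E m → g • x ∈ E m := by
    intro m g x hx
    rw [hmem] at hx ⊢
    obtain ⟨i, hi, hx⟩ := hx
    exact ⟨i, hi, FixG_inv (P i) X g x hx⟩
  have hEn : ∀ m (g : G) (x : X.X), x ∉ E m → g • x ∉ E m := fun m g x hx h => hx (by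
    have := hEi m g⁻¹ _ h
    rwa [inv_smul_smul] at this)
  have hfix : ∀ i x, HasStabilizer (P i) X x → x ∈ FixG (P i) X := by
    rintro i x ⟨g, hg⟩
    exact ⟨g, fun h hh => (hg h).mpr hh⟩
  have key : ∀ m, m ≤ k → BC (loc X (E m) (hE m).isLocallyClosed (hEi m)) := by
    intro m
    induction m with
    | zero =>
      intro _
      refine bc_empty hBC _ ⟨fun x => ?_⟩
      have := (hmem 0 x.1).mp x.2
      obtain ⟨i, hi, -⟩ := this
      exact absurd hi (Nat.not_lt_zero _)
    | succ m ih =>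
      intro hm
      have hmk : m < k := hm
      have hZ := ih hmk.le
      have hst : ∀ x ∈ E (m + 1), x ∉ E m →
          ∃ g : G, ∀ h : G, h • (g⁻¹ • x) = g⁻¹ • x ↔ h ∈ P ⟨m, hmk⟩ := by
        intro x hx hx'
        obtain ⟨i, hi, g', hg'⟩ := (hmem (m + 1) x).mp hx
        have him : i.1 = m := by
          by_contra hne
          exact hx' ((hmem m x).mpr ⟨i, by omega, g', hg'⟩)
        obtain ⟨l, hl⟩ := hX x
        have hlm : m ≤ l.1 := by
          by_contra hlt
          exact hx' ((hmem m x).mpr ⟨l, by omega, hfix l x hl⟩)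
        obtain ⟨g, hg⟩ := hl
        have hle : l ≤ i := by
          refine hord i l (g⁻¹ * g') fun p hp => (hg _).mp ?_
          have h1 : (g⁻¹ * g')⁻¹ • g⁻¹ • x = g'⁻¹ • x := by
            rw [smul_smul]; congr 1; group
          rw [mul_smul, h1, mul_smul, hg' p hp, smul_smul]
          congr 1; group
        have hli : l = ⟨m, hmk⟩ := Fin.ext (by
          have : l.1 ≤ i.1 := hle
          change l.1 = m
          omega)
        exact ⟨g, by rw [← hli]; exact hg⟩
      have := hcpt ⟨m, hmk⟩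
      have hsub : E m ⊆ E (m + 1) := by
        intro x hx
        rw [hmem] at hx ⊢
        obtain ⟨i, hi, hx⟩ := hx
        exact ⟨i, by omega, hx⟩
      let C : Set X.X := E (m + 1) ∩ (E m)ᶜ
      have hC : IsLocallyClosed C :=
        (hE (m + 1)).isLocallyClosed.inter (hE m).isOpen_compl.isLocallyClosed
      have hCi : ∀ (g : G) (x : X.X), x ∈ C → g • x ∈ C := fun g x hx =>
        ⟨hEi _ g x hx.1, hEn m g x hx.2⟩
      obtain ⟨R, hR⟩ := hfin ⟨m, hmk⟩
      have hW : BC (loc X C hC hCi) := by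
        refine bc_stratum hBC hun (P ⟨m, hmk⟩) (hP _)
          (R.filter fun r => r ∉ P ⟨m, hmk⟩ ∧ ∀ p ∈ P ⟨m, hmk⟩, r * p * r⁻¹ ∈ P ⟨m, hmk⟩)
          (hstrict _) (fun r hr => (Finset.mem_filter.mp hr).2.1)
          (fun r hr => (Finset.mem_filter.mp hr).2.2) ?_ (hb ⟨m, hmk⟩) _ ?_
        · intro g hg
          by_cases hgP : g ∈ P ⟨m, hmk⟩
          · exact Or.inl hgP
          · right
            obtain ⟨r, hr, hrg⟩ := hR g hg
            refine ⟨r, Finset.mem_filter.mpr ⟨hr, fun h => hgP ?_, fun p hp => ?_⟩, hrg⟩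
            · have := (P ⟨m, hmk⟩).mul_mem h hrg
              rwa [mul_inv_cancel_left] at this
            · have h1 := (P ⟨m, hmk⟩).mul_mem ((P ⟨m, hmk⟩).mul_mem
                ((P ⟨m, hmk⟩).inv_mem hrg) hp) hrg
              have h2 := hg _ h1
              have h3 : g * ((r⁻¹ * g)⁻¹ * p * (r⁻¹ * g)) * g⁻¹ = r * p * r⁻¹ := by group
              rwa [h3] at h2
        · intro w
          obtain ⟨g, hg⟩ := hst w.1 w.2.1 w.2.2
          exact ⟨g, fun h => Iff.trans Subtype.ext_iff (hg h)⟩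
      refine (hBC.excision (loc X (E m) (hE m).isLocallyClosed (hEi m))
        (loc X (E (m + 1)) (hE _).isLocallyClosed (hEi _)) (loc X C hC hCi)
        (incl hsub) (incl inter_subset_left) ⟨incl_emb _, ?_⟩ ⟨incl_emb _, ?_⟩
        (fun _ _ => rfl) (fun _ _ => rfl) ?_).2.1 hZ hW
      · rw [incl_range]
        exact (hE m).preimage continuous_subtype_val
      · rw [incl_range]
        have : {w : (loc X (E (m + 1)) (hE _).isLocallyClosed (hEi _)).X | w.1 ∈ C} =
            (fun w => w.1) ⁻¹' (E m)ᶜ := by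
          ext w
          exact ⟨fun h => h.2, fun h => ⟨w.2, h⟩⟩
        rw [this]
        exact (hE m).isOpen_compl.preimage continuous_subtype_val
      · rw [incl_range, incl_range]
        ext w
        exact ⟨fun h => h.2, fun h => ⟨w.2, h⟩⟩
  have huniv : ∀ x : X.X, x ∈ E k := fun x => by
    obtain ⟨i, hi⟩ := hX x
    exact (hmem k x).mpr ⟨i, i.2, hfix i x hi⟩
  let f : X.X → (loc X (E k) (hE k).isLocallyClosed (hEi k)).X := fun x => ⟨x, huniv x⟩
  have hfc : Continuous f := continuous_id.subtype_mk _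
  have hfe : IsEmbedding f :=
    IsEmbedding.of_comp hfc (g := Subtype.val) continuous_subtype_val .id
  have hfr : range f = univ := by
    rw [eq_univ_iff_forall]
    exact fun w => ⟨w.1, rfl⟩
  have hf1 : IsClosed (range f) := by rw [hfr]; exact isClosed_univ
  have hf2 : IsOpen (range f) := by rw [hfr]; exact isOpen_univ
  exact hBC.piece X _ f ⟨hfe, hf1⟩ ⟨hfe, hf2⟩ (fun _ _ => rfl) (key k le_rfl)

end Pool.Agent.Q27.GT
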