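import Pool.Agent.Q27.GS.Main

/-!
# Spaces with stabilizers in a finite family of cocompact self-normalizing subgroups

The stratum of the points whose stabilizer is conjugate to `P` is `G / P × Y`.
-/

namespace Pool.Agent.Q27.GT

open Topology Set Filter
open Pool.Agent.Q27.GS

variable {G : Type} [Group G] [TopologicalSpace G] [IsTopologicalGroup G]

/-- The points fixed by a conjugate of `P`. -/
def FixG (P : Subgroup G) (X : GSp G) : Set X.X :=
  {x | ∃ g : G, ∀ h ∈ P, h • (g⁻¹ • x) = g⁻¹ • x}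

theorem FixG_inv (P : Subgroup G) (X : GSp G) (g : G) (x : X.X) (hx : x ∈ FixG P X) :
    g • x ∈ FixG P X := by
  obtain ⟨k, hk⟩ := hx
  refine ⟨g * k, fun h hh => ?_⟩
  have : (g * k)⁻¹ • g • x = k⁻¹ • x := by
    rw [smul_smul, mul_inv_rev, inv_mul_cancel_right]
  rw [this]
  exact hk h hh

/-- The images of closed sets of pairs, constant on the cosets of `P`, are closed. -/
theorem closed_image (P : Subgroup G) [CompactSpace (G ⧸ P)] {W : Type} [TopologicalSpace W]
    (D : Set (G × W)) (hD : IsClosed D) (hs : ∀ g w, ∀ p ∈ P, (g, w) ∈ D → (g * p, w) ∈ D) :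
    IsClosed (Prod.snd '' D) := by
  let q : G × W → (G ⧸ P) × W := Prod.map QuotientGroup.mk id
  have hq : IsOpenQuotientMap q := QuotientGroup.isOpenQuotientMap_mk.prodMap IsOpenQuotientMap.id
  have h1 : q ⁻¹' (q '' D) = D := by
    refine subset_antisymm ?_ (subset_preimage_image q D)
    rintro ⟨g, w⟩ ⟨⟨g', w'⟩, hd, he⟩
    have e1 : (QuotientGroup.mk g' : G ⧸ P) = QuotientGroup.mk g := congrArg Prod.fst he
    have e2 : w' = w := congrArg Prod.snd he
    subst e2
    have e3 := QuotientGroup.eq.mp e1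
    have := hs g' w' _ e3 hd
    rwa [mul_inv_cancel_left] at this
  have h2 : IsClosed (q '' D) := by
    rw [← hq.isQuotientMap.isClosed_preimage, h1]
    exact hD
  have h3 := isClosedMap_snd_of_compactSpace (X := G ⧸ P) (Y := W) _ h2
  rw [image_image] at h3
  exact h3

theorem FixG_closed (P : Subgroup G) [CompactSpace (G ⧸ P)] (X : GSp G) :
    IsClosed (FixG P X) := by
  let D : Set (G × X.X) := {p | ∀ h ∈ P, h • (p.1⁻¹ • p.2) = p.1⁻¹ • p.2}
  have hD : IsClosed D := by
    have : D = ⋂ h ∈ P, {p : G × X.X | h • (p.1⁻¹ • p.2) = p.1⁻¹ • p.2} := by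
      ext p; simp [D]
    rw [this]
    refine isClosed_biInter fun h _ => isClosed_eq ?_ ?_
    · fun_prop
    · fun_prop
  have h1 := closed_image P D hD (by
    intro g x p hp hd h hh
    change h • ((g * p)⁻¹ • x) = (g * p)⁻¹ • x
    have h2 : (g * p)⁻¹ • x = g⁻¹ • x := by
      rw [mul_inv_rev, mul_smul]
      exact hd p⁻¹ (P.inv_mem hp)
    rw [h2]
    exact hd h hh)
  convert h1 using 1
  ext x
  constructor
  · rintro ⟨g, hg⟩
    exact ⟨(g, x), hg, rfl⟩
  · rintro ⟨⟨g, y⟩, hg, rfl⟩
    exact ⟨g, hg⟩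

theorem t2_coset (P : Subgroup G) (hP : IsClosed (P : Set G)) : T2Space (G ⧸ P) := by
  rw [t2Space_iff_of_isOpenQuotientMap (QuotientGroup.isOpenQuotientMap_mk (N := P))]
  have : {q : G × G | (QuotientGroup.mk q.1 : G ⧸ P) = QuotientGroup.mk q.2} =
      (fun q : G × G => q.1⁻¹ * q.2) ⁻¹' (P : Set G) := by
    ext q
    exact QuotientGroup.eq
  rw [this]
  exact hP.preimage (by fun_prop)

/-- The space `G / P × Y`, `G` acts on the first factor. -/
def coset (P : Subgroup G) (hP : IsClosed (P : Set G)) [LocallyCompactSpace G]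
    [SecondCountableTopology G] (Y : Type) [TopologicalSpace Y] [LocallyCompactSpace Y]
    [T2Space Y] [SecondCountableTopology Y] : GSp G :=
  let act : MulAction G ((G ⧸ P) × Y) :=
    { smul := fun g p => (g • p.1, p.2)
      one_smul := fun p => Prod.ext (one_smul G p.1) rfl
      mul_smul := fun a b p => Prod.ext (mul_smul a b p.1) rfl }
  have _h1 : T2Space (G ⧸ P) := t2_coset P hP
  { X := (G ⧸ P) × Y
    act := act
    cont := ⟨(continuous_fst.smul (continuous_fst.comp continuous_snd)).prodMk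
      (continuous_snd.comp continuous_snd)⟩ }

end Pool.Agent.Q27.GT
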