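import Pool.Agent.Q27.GT.Fam

/-!
# Spaces with one conjugacy class of stabilizers with finite normalizer quotient
-/

namespace Pool.Agent.Q27.GT

open Topology Set Filter
open Pool.Agent.Q27.GS

variable {G : Type} [Group G] [TopologicalSpace G]

/-- A locally closed invariant subspace. -/
def loc (A : GSp G) (s : Set A.X) (hs : IsLocallyClosed s)
    (hi : ∀ (g : G) (x : A.X), x ∈ s → g • x ∈ s) : GSp G :=
  let act : MulAction G s :=
    { smul := fun g x => ⟨g • x.1, hi g x.1 x.2⟩
      one_smul := fun x => Subtype.ext (one_smul G x.1)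
      mul_smul := fun a b x => Subtype.ext (mul_smul a b x.1) }
  { X := s
    act := act
    cont := ⟨Continuous.subtype_mk
      (continuous_fst.smul (continuous_subtype_val.comp continuous_snd)) _⟩
    lc := hs.locallyCompactSpace }

/-- The inclusion of locally closed subspaces. -/
def incl {A : GSp G} {s t : Set A.X} {hs hi ht hj} (h : s ⊆ t) :
    (loc A s hs hi).X → (loc A t ht hj).X := fun x => ⟨x.1, h x.2⟩

theorem incl_emb {A : GSp G} {s t : Set A.X} {hs hi ht hj} (h : s ⊆ t) :
    IsEmbedding (incl (A := A) (s := s) (t := t) (hs := hs) (hi := hi) (ht := ht) (hj := hj) h) :=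
  IsEmbedding.of_comp (g := Subtype.val) (continuous_subtype_val.subtype_mk _)
    continuous_subtype_val .subtypeVal

theorem incl_range {A : GSp G} {s t : Set A.X} {hs hi ht hj} (h : s ⊆ t) :
    range (incl (A := A) (s := s) (t := t) (hs := hs) (hi := hi) (ht := ht) (hj := hj) h) =
      {w | w.1 ∈ s} := by
  ext w
  constructor
  · rintro ⟨x, rfl⟩
    exact x.2
  · intro hw
    exact ⟨⟨w.1, hw⟩, rfl⟩

variable [IsTopologicalGroup G] [LocallyCompactSpace G] [SecondCountableTopology G]

theorem bc_section {BC : GSp G → Prop} (hBC : IsBC BC) (P : Subgroup G)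
    (hP : IsClosed (P : Set G)) [CompactSpace (G ⧸ P)]
    (hb : ∀ (Y : Type) [TopologicalSpace Y] [LocallyCompactSpace Y] [T2Space Y]
      [SecondCountableTopology Y], BC (coset P hP Y))
    (W : GSp G) (Ys : Set W.X) (hY : IsClosed Ys) (hfix : ∀ y ∈ Ys, ∀ p ∈ P, p • y = y)
    (hall : ∀ w : W.X, ∃ g : G, g⁻¹ • w ∈ Ys) (hsep : ∀ g : G, ∀ y ∈ Ys, g • y ∈ Ys → g ∈ P) :
    BC W := by
  classical
  have hYlc : LocallyCompactSpace Ys := hY.isClosedEmbedding_subtypeVal.locallyCompactSpace
  let q : G × Ys → (G ⧸ P) × Ys := Prod.map QuotientGroup.mk id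
  have hq : IsOpenQuotientMap q := QuotientGroup.isOpenQuotientMap_mk.prodMap IsOpenQuotientMap.id
  let f : (G ⧸ P) × Ys → W.X := fun p => (Quotient.out p.1 : G) • p.2.1
  have hfq : ∀ (g : G) (y : Ys), f (QuotientGroup.mk g, y) = g • y.1 := by
    intro g y
    change (Quotient.out (QuotientGroup.mk g : G ⧸ P) : G) • y.1 = g • y.1
    obtain ⟨p, hp⟩ := QuotientGroup.mk_out_eq_mul P g
    rw [hp, mul_smul, hfix y.1 y.2 p.1 p.2]
  have hfc : Continuous f := by
    rw [hq.isQuotientMap.continuous_iff]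
    have : f ∘ q = fun p : G × Ys => p.1 • p.2.1 := by
      funext p
      exact hfq p.1 p.2
    rw [this]
    exact continuous_fst.smul (continuous_subtype_val.comp continuous_snd)
  have hfi : Function.Injective f := by
    rintro ⟨c, y⟩ ⟨c', y'⟩ h
    obtain ⟨g, rfl⟩ := QuotientGroup.mk_surjective c
    obtain ⟨g', rfl⟩ := QuotientGroup.mk_surjective c'
    have h1 : g • y.1 = g' • y'.1 := by
      rw [← hfq g y, ← hfq g' y', h]
    have h2 : (g⁻¹ * g') • y'.1 = y.1 := by
      rw [mul_smul, ← h1, inv_smul_smul]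
    have h3 : g⁻¹ * g' ∈ P := hsep _ y'.1 y'.2 (by rw [h2]; exact y.2)
    have h4 : (QuotientGroup.mk g : G ⧸ P) = QuotientGroup.mk g' := QuotientGroup.eq.mpr h3
    have h5 : y = y' := by
      refine Subtype.ext ?_
      rw [← h2]
      exact hfix _ y'.2 _ h3
    rw [h4, h5]
  have hfs : Function.Surjective f := by
    intro w
    obtain ⟨g, hg⟩ := hall w
    refine ⟨(QuotientGroup.mk g, ⟨g⁻¹ • w, hg⟩), ?_⟩
    rw [hfq, smul_inv_smul]
  have hfcl : IsClosedMap f := by
    intro C hC
    let C1 : Set ((G ⧸ P) × W.X) := (Prod.map id Subtype.val) '' C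
    have hC1 : IsClosed C1 :=
      (IsClosedEmbedding.id.prodMap hY.isClosedEmbedding_subtypeVal).isClosedMap _ hC
    let ψ : G × W.X → (G ⧸ P) × W.X := fun p => (QuotientGroup.mk p.1, p.1⁻¹ • p.2)
    have hψ : Continuous ψ :=
      (QuotientGroup.continuous_mk.comp continuous_fst).prodMk
        (continuous_fst.inv.smul continuous_snd)
    have hcl := closed_image P (ψ ⁻¹' C1) (hC1.preimage hψ) (by
      rintro g w p hp ⟨⟨c, y⟩, hcy, he⟩
      have e1 : c = QuotientGroup.mk g := congrArg Prod.fst he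
      have e2 : y.1 = g⁻¹ • w := congrArg Prod.snd he
      refine ⟨(c, y), hcy, Prod.ext ?_ ?_⟩
      · change c = QuotientGroup.mk (g * p)
        rw [e1]
        exact QuotientGroup.eq.mpr (by simpa using hp)
      · change y.1 = (g * p)⁻¹ • w
        rw [mul_inv_rev, mul_smul, ← e2]
        exact (hfix _ y.2 _ (P.inv_mem hp)).symm)
    convert hcl using 1
    ext w
    constructor
    · rintro ⟨⟨c, y⟩, hcy, rfl⟩
      obtain ⟨g, rfl⟩ := QuotientGroup.mk_surjective c
      refine ⟨(g, f (QuotientGroup.mk g, y)), ⟨(QuotientGroup.mk g, y), hcy, ?_⟩, rfl⟩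
      refine Prod.ext rfl ?_
      change y.1 = g⁻¹ • f (QuotientGroup.mk g, y)
      rw [hfq, inv_smul_smul]
    · rintro ⟨⟨g, w'⟩, ⟨⟨c, y⟩, hcy, he⟩, rfl⟩
      have e1 : c = QuotientGroup.mk g := congrArg Prod.fst he
      have e2 : y.1 = g⁻¹ • w' := congrArg Prod.snd he
      subst e1
      refine ⟨(QuotientGroup.mk g, y), hcy, ?_⟩
      rw [hfq, e2, smul_inv_smul]
  let e : (G ⧸ P) × Ys ≃ₜ W.X :=
    (Equiv.ofBijective f ⟨hfi, hfs⟩).toHomeomorphOfContinuousClosed hfc hfcl
  have hfe : ∀ (g : G) (p : (coset P hP Ys).X), f (g • p) = g • f p := by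
    rintro g ⟨c, y⟩
    obtain ⟨g', rfl⟩ := QuotientGroup.mk_surjective c
    change f (QuotientGroup.mk (g * g'), y) = g • f (QuotientGroup.mk g', y)
    rw [hfq, hfq, mul_smul]
  refine hBC.piece W (coset P hP Ys) e.symm e.symm.isClosedEmbedding e.symm.isOpenEmbedding
    (fun g w => ?_) (hb Ys)
  obtain ⟨p, rfl⟩ := e.surjective w
  apply e.injective
  rw [e.apply_symm_apply]
  have h1 : e.symm (e p) = p := e.symm_apply_apply p
  rw [h1]
  exact (hfe g p).symm

end Pool.Agent.Q27.GT
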