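import Pool.Agent.Q27.GT.Sec

/-!
# Spaces with one conjugacy class of stabilizers
-/

namespace Pool.Agent.Q27.GT

open Topology Set Filter
open Pool.Agent.Q27.GS

variable {G : Type} [Group G] [TopologicalSpace G]

/-- The property passes to increasing unions of open invariant subspaces. -/
def Unions (BC : GSp G → Prop) : Prop :=
  ∀ (A : GSp G) (W : ℕ → GSp G) (j : ∀ n, (W n).X → A.X), (∀ n, IsOpenEmbedding (j n)) →
    (∀ n, Equi (W n) A (j n)) → Monotone (fun n => range (j n)) → ⋃ n, range (j n) = univ →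
    (∀ n, BC (W n)) → BC A

theorem exists_cover (S : GSp G) (Y : Set S.X) (R : Finset G)
    (hR : ∀ r ∈ R, ∀ y ∈ Y, r • y ≠ y) :
    ∃ V : ℕ → Set S.X, (∀ n, IsOpen (V n)) ∧ (∀ n, ∀ y ∈ V n, ∀ r ∈ R, r • y ∉ V n) ∧
      ∀ y ∈ Y, ∃ n, y ∈ V n := by
  classical
  let B : Set (Set S.X) := insert ∅ {b ∈ TopologicalSpace.countableBasis S.X |
    ∀ y ∈ b, ∀ r ∈ R, r • y ∉ b}
  have hB : B.Countable := ((TopologicalSpace.countable_countableBasis S.X).mono
    (fun b hb => hb.1)).insert ∅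
  obtain ⟨V, hV⟩ := hB.exists_eq_range ⟨∅, mem_insert _ _⟩
  have hVB : ∀ n, V n ∈ B := fun n => by rw [hV]; exact mem_range_self n
  refine ⟨V, fun n => ?_, fun n => ?_, fun y hy => ?_⟩
  · rcases hVB n with h | h
    · rw [h]; exact isOpen_empty
    · exact TopologicalSpace.isOpen_of_mem_countableBasis h.1
  · rcases hVB n with h | h
    · rw [h]
      intro y hy
      exact hy.elim
    · exact h.2
  · have h1 : ∀ r ∈ R, ∃ U : Set S.X, IsOpen U ∧ y ∈ U ∧ ∀ z ∈ U, r • z ∉ U := by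
      intro r hr
      obtain ⟨U, U', hU, hU', hyU, hyU', hd⟩ := t2_separation (hR r hr y hy).symm
      refine ⟨U ∩ (fun z => r • z) ⁻¹' U', hU.inter (hU'.preimage (continuous_const_smul r)),
        ⟨hyU, hyU'⟩, fun z hz hz' => ?_⟩
      exact disjoint_left.mp hd hz'.1 hz.2
    choose! U hU1 hU2 hU3 using h1
    have h2 : IsOpen (⋂ r ∈ R, U r) := isOpen_biInter_finset hU1
    obtain ⟨b, hb, hyb, hbs⟩ := (TopologicalSpace.isBasis_countableBasis S.X).exists_subset_of_mem_open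
      (mem_iInter₂.mpr hU2) h2
    have h3 : b ∈ B := Or.inr ⟨hb, fun z hz r hr hrz =>
      hU3 r hr z (mem_iInter₂.mp (hbs hz) r hr) (mem_iInter₂.mp (hbs hrz) r hr)⟩
    rw [hV] at h3
    obtain ⟨n, rfl⟩ := h3
    exact ⟨n, hyb⟩

variable [IsTopologicalGroup G] [LocallyCompactSpace G] [SecondCountableTopology G]

theorem bc_stratum {BC : GSp G → Prop} (hBC : IsBC BC) (hun : Unions BC) (P : Subgroup G)
    (hP : IsClosed (P : Set G)) [CompactSpace (G ⧸ P)] (R : Finset G)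
    (hstrict : ∀ g : G, (∀ p ∈ P, g * p * g⁻¹ ∈ P) → ∀ p ∈ P, g⁻¹ * p * g ∈ P)
    (hR1 : ∀ r ∈ R, r ∉ P) (hR2 : ∀ r ∈ R, ∀ p ∈ P, r * p * r⁻¹ ∈ P)
    (hR3 : ∀ g : G, (∀ p ∈ P, g * p * g⁻¹ ∈ P) → g ∈ P ∨ ∃ r ∈ R, r⁻¹ * g ∈ P)
    (hb : ∀ (Y : Type) [TopologicalSpace Y] [LocallyCompactSpace Y] [T2Space Y]
      [SecondCountableTopology Y], BC (coset P hP Y))
    (S : GSp G) (hS : ∀ x : S.X, HasStabilizer P S x) : BC S := by
  classical
  let Y : Set S.X := {y | ∀ p ∈ P, p • y = y}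
  have hYc : IsClosed Y := by
    have : Y = ⋂ p ∈ P, {y : S.X | p • y = y} := by
      ext x; simp [Y]
    rw [this]
    exact isClosed_biInter fun h _ => isClosed_eq (continuous_const_smul h) continuous_id
  have hst : ∀ y ∈ Y, ∀ h : G, h • y = y ↔ h ∈ P := by
    intro y hy
    obtain ⟨g, hg⟩ := hS y
    have h1 : ∀ p ∈ P, g⁻¹ * p * g⁻¹⁻¹ ∈ P := fun p hp => (hg _).mp (by
      rw [inv_inv, smul_smul, mul_inv_cancel_right, mul_smul, hy p hp])
    have h2 := hstrict g⁻¹ h1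
    rw [inv_inv] at h2
    intro h
    refine ⟨fun hh => ?_, fun hh => hy h hh⟩
    have h3 : g⁻¹ * h * g ∈ P := (hg _).mp (by
      rw [smul_smul, mul_inv_cancel_right, mul_smul, hh])
    have h4 := h2 _ h3
    have h5 : g * (g⁻¹ * h * g) * g⁻¹ = h := by group
    rwa [h5] at h4
  have hnorm : ∀ y ∈ Y, ∀ g : G, g • y ∈ Y → g ∈ P ∨ ∃ r ∈ R, g • y = r • y := by
    intro y hy g hgy
    have h1 : ∀ p ∈ P, g⁻¹ * p * g⁻¹⁻¹ ∈ P := fun p hp => (hst y hy _).mp (by
      rw [inv_inv, mul_smul, mul_smul, hgy p hp, inv_smul_smul])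
    have h2 := hstrict g⁻¹ h1
    rw [inv_inv] at h2
    rcases hR3 g h2 with h | ⟨r, hr, h⟩
    · exact Or.inl h
    · refine Or.inr ⟨r, hr, ?_⟩
      have h3 := hy _ h
      rw [mul_smul] at h3
      rw [← h3, smul_inv_smul, h3]
  have hRY : ∀ r ∈ R, ∀ y ∈ Y, r • y ∈ Y := by
    intro r hr y hy p hp
    have h1 := hstrict r (hR2 r hr) p hp
    have h2 := hy _ h1
    rw [mul_smul, mul_smul] at h2
    calc p • r • y = r • (r⁻¹ • p • r • y) := by rw [smul_inv_smul]
      _ = r • y := by rw [h2]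
  obtain ⟨V, hVo, hVd, hVc⟩ := exists_cover S Y R
    (fun r hr y hy h => hR1 r hr ((hst y hy r).mp h))
  have hS' : ∀ x : S.X, ∃ g : G, g⁻¹ • x ∈ Y := fun x => by
    obtain ⟨g, hg⟩ := hS x
    exact ⟨g, fun p hp => (hg p).mpr hp⟩
  -- membership of the points of `Y` in the saturation of `V n`
  have hsat : ∀ n, ∀ y ∈ Y, ∀ g : G, g⁻¹ • y ∈ Y → g⁻¹ • y ∈ V n →
      y ∈ V n ∨ ∃ r ∈ R, r • y ∈ V n := by
    intro n y hy g h1 h2
    rcases hnorm y hy g⁻¹ h1 with h | ⟨r, hr, h⟩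
    · left
      rwa [hy _ h] at h2
    · right
      exact ⟨r, hr, by rwa [← h]⟩
  let Om : ℕ → Set S.X := fun m => {x | ∃ n, n < m ∧ ∃ g : G, g⁻¹ • x ∈ Y ∧ g⁻¹ • x ∈ V n}
  have hOm : ∀ m, IsOpen (Om m) := by
    intro m
    let B : Set S.X := {y | y ∈ Y ∧ ∀ n, n < m → y ∉ V n ∧ ∀ r ∈ R, r • y ∉ V n}
    have hB : IsClosed B := by
      have : B = Y ∩ ⋂ (n : ℕ) (_ : n < m), ((V n)ᶜ ∩ ⋂ r ∈ R, (fun y => r • y) ⁻¹' (V n)ᶜ) := by
        ext y
        simp [B]
      rw [this]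
      refine hYc.inter (isClosed_iInter fun n => isClosed_iInter fun _ =>
        (hVo n).isClosed_compl.inter (isClosed_biInter fun r _ =>
          (hVo n).isClosed_compl.preimage (continuous_const_smul r)))
    have hcl := closed_image P {p : G × S.X | p.1⁻¹ • p.2 ∈ B} (hB.preimage (by fun_prop)) (by
      intro g x p hp hd
      have hd1 : g⁻¹ • x ∈ B := hd
      change (g * p)⁻¹ • x ∈ B
      have h2 : (g * p)⁻¹ • x = g⁻¹ • x := by
        rw [mul_inv_rev, mul_smul]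
        exact hd1.1 p⁻¹ (P.inv_mem hp)
      rwa [h2])
    rw [← isClosed_compl_iff]
    convert hcl using 1
    ext x
    constructor
    · intro hx
      obtain ⟨g, hg⟩ := hS' x
      refine ⟨(g, x), ⟨hg, fun n hn => ⟨fun h => hx ⟨n, hn, g, hg, h⟩, fun r hr h => ?_⟩⟩, rfl⟩
      refine hx ⟨n, hn, g * r⁻¹, ?_, ?_⟩
      · rw [mul_inv_rev, inv_inv, mul_smul]
        exact hRY r hr _ hg
      · rw [mul_inv_rev, inv_inv, mul_smul]
        exact h
    · rintro ⟨⟨g, x'⟩, hgx, rfl⟩ ⟨n, hn, g', h1, h2⟩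
      have hy : g⁻¹ • x' ∈ B := hgx
      have e : g'⁻¹ • x' = (g⁻¹ * g')⁻¹ • g⁻¹ • x' := by
        rw [smul_smul]; congr 1; group
      change g'⁻¹ • x' ∈ Y at h1
      change g'⁻¹ • x' ∈ V n at h2
      rw [e] at h1 h2
      rcases hsat n _ hy.1 _ h1 h2 with h | ⟨r, hr, h⟩
      · exact (hy.2 n hn).1 h
      · exact (hy.2 n hn).2 r hr h
  have hOmi : ∀ m (g : G) (x : S.X), x ∈ Om m → g • x ∈ Om m := by
    rintro m g x ⟨n, hn, k, h1, h2⟩
    have : (g * k)⁻¹ • g • x = k⁻¹ • x := by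
      rw [smul_smul, mul_inv_rev, inv_mul_cancel_right]
    exact ⟨n, hn, g * k, by rwa [this], by rwa [this]⟩
  have hOmn : ∀ m (g : G) (x : S.X), x ∉ Om m → g • x ∉ Om m := fun m g x hx h => hx (by
    have := hOmi m g⁻¹ _ h
    rwa [inv_smul_smul] at this)
  have hmono : ∀ m, Om m ⊆ Om (m + 1) := by
    rintro m x ⟨n, hn, h⟩
    exact ⟨n, by omega, h⟩
  have key : ∀ m, BC (loc S (Om m) (hOm m).isLocallyClosed (hOmi m)) := by
    intro m
    induction m with
    | zero =>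
      refine bc_empty hBC _ ⟨fun x => ?_⟩
      obtain ⟨n, hn, -⟩ := x.2
      exact absurd hn (Nat.not_lt_zero _)
    | succ m ih =>
      let C : Set S.X := Om (m + 1) ∩ (Om m)ᶜ
      have hC : IsLocallyClosed C :=
        (hOm (m + 1)).isLocallyClosed.inter (hOm m).isClosed_compl.isLocallyClosed
      have hCi : ∀ (g : G) (x : S.X), x ∈ C → g • x ∈ C := fun g x hx =>
        ⟨hOmi _ g x hx.1, hOmn m g x hx.2⟩
      have hCV : ∀ x ∈ C, ∃ g : G, g⁻¹ • x ∈ Y ∧ g⁻¹ • x ∈ V m := by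
        rintro x ⟨⟨n, hn, g, h1, h2⟩, hx⟩
        have : n = m := by
          by_contra hne
          exact hx ⟨n, by omega, g, h1, h2⟩
        subst this
        exact ⟨g, h1, h2⟩
      have hZ : BC (loc S C hC hCi) := by
        have hval : Continuous fun w : (loc S C hC hCi).X => w.1 := continuous_subtype_val
        refine bc_section hBC P hP hb (loc S C hC hCi)
          {w | w.1 ∈ Y ∧ ∀ r ∈ R, r • w.1 ∉ V m} ?_ ?_ ?_ ?_
        · have : {w : (loc S C hC hCi).X | w.1 ∈ Y ∧ ∀ r ∈ R, r • w.1 ∉ V m} =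
              (fun w : (loc S C hC hCi).X => w.1) ⁻¹'
                (Y ∩ ⋂ r ∈ R, (fun y => r • y) ⁻¹' (V m)ᶜ) := by
            ext w
            simp
          rw [this]
          exact (hYc.inter (isClosed_biInter fun r _ =>
            (hVo m).isClosed_compl.preimage (continuous_const_smul r))).preimage hval
        · intro y hy p hp
          exact Subtype.ext (hy.1 p hp)
        · intro w
          obtain ⟨g, h1, h2⟩ := hCV w.1 w.2
          exact ⟨g, h1, fun r hr h => hVd m _ h2 r hr h⟩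
        · intro g y hy hgy
          have hin : ∀ w : (loc S C hC hCi).X, (w.1 ∈ Y ∧ ∀ r ∈ R, r • w.1 ∉ V m) →
              w.1 ∈ V m := by
            intro w hw
            obtain ⟨k, h1, h2⟩ := hCV w.1 w.2
            rcases hsat m w.1 hw.1 k h1 h2 with h | ⟨r, hr, h⟩
            · exact h
            · exact absurd h (hw.2 r hr)
          rcases hnorm y.1 hy.1 g hgy.1 with h | ⟨r, hr, h⟩
          · exact h
          · exfalso
            have h3 : g • y.1 ∈ V m := hin _ hgy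
            rw [h] at h3
            exact hy.2 r hr h3
      refine (hBC.excision (loc S C hC hCi) (loc S (Om (m + 1)) (hOm _).isLocallyClosed (hOmi _))
        (loc S (Om m) (hOm m).isLocallyClosed (hOmi m)) (incl inter_subset_left)
        (incl (hmono m)) ⟨incl_emb _, ?_⟩ ⟨incl_emb _, ?_⟩ (fun _ _ => rfl) (fun _ _ => rfl)
        ?_).2.1 hZ ih
      · rw [incl_range]
        have : {w : (loc S (Om (m + 1)) (hOm _).isLocallyClosed (hOmi _)).X | w.1 ∈ C} =
            (fun w => w.1) ⁻¹' (Om m)ᶜ := by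
          ext w
          exact ⟨fun h => h.2, fun h => ⟨w.2, h⟩⟩
        rw [this]
        exact (hOm m).isClosed_compl.preimage continuous_subtype_val
      · rw [incl_range]
        exact (hOm m).preimage continuous_subtype_val
      · rw [incl_range, incl_range]
        ext w
        constructor
        · intro h h'
          exact h'.2 h
        · intro h
          by_contra h'
          exact h ⟨w.2, h'⟩
  refine hun S (fun m => loc S (Om m) (hOm m).isLocallyClosed (hOmi m)) (fun m w => w.1)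
    (fun m => ⟨.subtypeVal, ?_⟩) (fun _ _ _ => rfl) ?_ ?_ key
  · have : range (fun w : (loc S (Om m) (hOm m).isLocallyClosed (hOmi m)).X => w.1) = Om m :=
      Subtype.range_val
    rw [this]
    exact hOm m
  · refine monotone_nat_of_le_succ fun m => ?_
    rintro x ⟨w, rfl⟩
    exact ⟨⟨w.1, hmono m w.2⟩, rfl⟩
  · rw [eq_univ_iff_forall]
    intro x
    obtain ⟨g, hg⟩ := hS' x
    obtain ⟨n, hn⟩ := hVc _ hg
    exact mem_iUnion.mpr ⟨n + 1, ⟨x, n, Nat.lt_succ_self n, g, hg, hn⟩, rfl⟩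

end Pool.Agent.Q27.GT
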