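import Pool.Agent.Q27.GT.Orb

/-!
# The stratum of one conjugacy class of stabilizers
-/

namespace Pool.Agent.Q27.GT

open Topology Set Filter
open Pool.Agent.Q27.GS

variable {G : Type} [Group G] [TopologicalSpace G] [IsTopologicalGroup G]
  [LocallyCompactSpace G] [SecondCountableTopology G]

theorem exists_stratum (P : Subgroup G) (hP : IsClosed (P : Set G)) [CompactSpace (G ⧸ P)]
    (hself : ∀ g : G, (∀ p ∈ P, g * p * g⁻¹ ∈ P) → g ∈ P) (X : GSp G) (E E' : Set X.X)
    (hE : IsClosed E) (hEi : ∀ (g : G) (x : X.X), x ∈ E → g • x ∈ E)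
    (hE' : IsClosed E') (hEi' : ∀ (g : G) (x : X.X), x ∈ E' → g • x ∈ E')
    (hstab : ∀ x ∈ E, x ∉ E' → ∃ g : G, ∀ h : G, h • (g⁻¹ • x) = g⁻¹ • x ↔ h ∈ P) :
    ∃ (Y : Type) (_ : TopologicalSpace Y) (_ : LocallyCompactSpace Y) (_ : T2Space Y)
      (_ : SecondCountableTopology Y) (j : (coset P hP Y).X → (X.sub E hE hEi).X),
      IsOpenEmbedding j ∧ Equi (coset P hP Y) (X.sub E hE hEi) j ∧
        range j = {w | w.1 ∉ E'} := by
  classical
  let Ys : Set X.X := {x | (x ∈ E ∧ ∀ h ∈ P, h • x = x) ∧ x ∉ E'}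
  have hYc : IsClosed {x : X.X | x ∈ E ∧ ∀ h ∈ P, h • x = x} := by
    have : {x : X.X | x ∈ E ∧ ∀ h ∈ P, h • x = x} = E ∩ ⋂ h ∈ P, {x : X.X | h • x = x} := by
      ext x; simp
    rw [this]
    exact hE.inter (isClosed_biInter fun h _ =>
      isClosed_eq (continuous_const_smul h) continuous_id)
  have hYl : IsLocallyClosed Ys := hYc.isLocallyClosed.inter hE'.isOpen_compl.isLocallyClosed
  have hYlc : LocallyCompactSpace Ys := hYl.locallyCompactSpace
  have hninv : ∀ (g : G) (x : X.X), x ∉ E' → g • x ∉ E' := fun g x hx h => hx (by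
    have := hEi' g⁻¹ _ h
    rwa [inv_smul_smul] at this)
  -- the stabilizers of the points of `Y` are `P`
  have hst : ∀ y ∈ Ys, ∀ h : G, h • y = y ↔ h ∈ P := by
    rintro y ⟨⟨hyE, hyP⟩, hyE'⟩
    obtain ⟨g, hg⟩ := hstab y hyE hyE'
    have h1 : g⁻¹ ∈ P := by
      refine hself g⁻¹ fun p hp => (hg _).mp ?_
      rw [inv_inv, smul_smul, mul_inv_cancel_right, mul_smul, hyP p hp]
    have h2 : g ∈ P := by simpa using P.inv_mem h1
    have h3 : g⁻¹ • y = y := hyP _ h1
    intro h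
    have := hg h
    rwa [h3] at this
  let q : G × Ys → (G ⧸ P) × Ys := Prod.map QuotientGroup.mk id
  have hq : IsOpenQuotientMap q := QuotientGroup.isOpenQuotientMap_mk.prodMap IsOpenQuotientMap.id
  let W : Set X.X := {x | x ∈ E ∧ x ∉ E'}
  let f : (G ⧸ P) × Ys → W := fun p =>
    ⟨(Quotient.out p.1 : G) • p.2.1, hEi _ _ p.2.2.1.1, hninv _ _ p.2.2.2⟩
  have hfq : ∀ (g : G) (y : Ys), (f (QuotientGroup.mk g, y)).1 = g • y.1 := by
    intro g y
    change (Quotient.out (QuotientGroup.mk g : G ⧸ P) : G) • y.1 = g • y.1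
    obtain ⟨p, hp⟩ := QuotientGroup.mk_out_eq_mul P g
    rw [hp, mul_smul, y.2.1.2 p.1 p.2]
  have hfc : Continuous f := by
    rw [hq.isQuotientMap.continuous_iff]
    have : f ∘ q = fun p : G × Ys => (⟨p.1 • p.2.1, hEi _ _ p.2.2.1.1, hninv _ _ p.2.2.2⟩ : W) := by
      funext p
      exact Subtype.ext (hfq p.1 p.2)
    rw [this]
    exact (continuous_fst.smul (continuous_subtype_val.comp continuous_snd)).subtype_mk _
  have hfi : Function.Injective f := by
    rintro ⟨c, y⟩ ⟨c', y'⟩ h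
    obtain ⟨g, rfl⟩ := QuotientGroup.mk_surjective c
    obtain ⟨g', rfl⟩ := QuotientGroup.mk_surjective c'
    have h1 : g • y.1 = g' • y'.1 := by
      rw [← hfq g y, ← hfq g' y', h]
    have h2 : y.1 = (g⁻¹ * g') • y'.1 := by
      rw [mul_smul, ← h1, inv_smul_smul]
    have h3 : g⁻¹ * g' ∈ P := by
      refine hself _ fun p hp => (hst y.1 y.2 _).mp ?_
      have h4 : p • y'.1 = y'.1 := y'.2.1.2 p hp
      rw [h2, smul_smul, inv_mul_cancel_right, mul_smul, h4]
    have h4 : (QuotientGroup.mk g : G ⧸ P) = QuotientGroup.mk g' := QuotientGroup.eq.mpr h3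
    have h5 : y = y' := by
      refine Subtype.ext ?_
      rw [h2]
      exact y'.2.1.2 _ h3
    rw [h4, h5]
  let inc : Ys → W := fun y => ⟨y.1, y.2.1.1, y.2.2⟩
  have hinc : IsClosedEmbedding inc := by
    have hc : Continuous inc := continuous_subtype_val.subtype_mk _
    refine ⟨IsEmbedding.of_comp hc (g := Subtype.val) continuous_subtype_val .subtypeVal, ?_⟩
    have : range inc = ⋂ h ∈ P, {w : W | h • w.1 = w.1} := by
      ext w
      simp only [mem_iInter]
      constructor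
      · rintro ⟨y, rfl⟩ h hh
        exact y.2.1.2 h hh
      · intro hw
        exact ⟨⟨w.1, ⟨w.2.1, hw⟩, w.2.2⟩, rfl⟩
    rw [this]
    refine isClosed_biInter fun h _ => isClosed_eq ?_ continuous_subtype_val
    exact continuous_subtype_val.const_smul h
  have hfcl : IsClosedMap f := by
    intro C hC
    let C1 : Set ((G ⧸ P) × W) := (Prod.map id inc) '' C
    have hC1 : IsClosed C1 := (IsClosedEmbedding.id.prodMap hinc).isClosedMap _ hC
    let ψ : G × W → (G ⧸ P) × W := fun p =>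
      (QuotientGroup.mk p.1, ⟨p.1⁻¹ • p.2.1, hEi _ _ p.2.2.1, hninv _ _ p.2.2.2⟩)
    have hψ : Continuous ψ := by
      refine (QuotientGroup.continuous_mk.comp continuous_fst).prodMk ?_
      exact (continuous_fst.inv.smul (continuous_subtype_val.comp continuous_snd)).subtype_mk _
    have hcl := closed_image P (ψ ⁻¹' C1) (hC1.preimage hψ) (by
      rintro g w p hp ⟨⟨c, y⟩, hcy, he⟩
      have e1 : c = QuotientGroup.mk g := congrArg Prod.fst he
      have e2 : y.1 = g⁻¹ • w.1 := congrArg (fun z => z.2.1) he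
      refine ⟨(c, y), hcy, Prod.ext ?_ (Subtype.ext ?_)⟩
      · change c = QuotientGroup.mk (g * p)
        rw [e1]
        exact QuotientGroup.eq.mpr (by simpa using hp)
      · change y.1 = (g * p)⁻¹ • w.1
        rw [mul_inv_rev, mul_smul, ← e2]
        exact (y.2.1.2 _ (P.inv_mem hp)).symm)
    convert hcl using 1
    ext w
    constructor
    · rintro ⟨⟨c, y⟩, hcy, rfl⟩
      obtain ⟨g, rfl⟩ := QuotientGroup.mk_surjective c
      refine ⟨(g, f (QuotientGroup.mk g, y)), ⟨(QuotientGroup.mk g, y), hcy, ?_⟩, rfl⟩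
      refine Prod.ext rfl (Subtype.ext ?_)
      change y.1 = g⁻¹ • (f (QuotientGroup.mk g, y)).1
      rw [hfq, inv_smul_smul]
    · rintro ⟨⟨g, w'⟩, ⟨⟨c, y⟩, hcy, he⟩, rfl⟩
      have e1 : c = QuotientGroup.mk g := congrArg Prod.fst he
      have e2 : y.1 = g⁻¹ • w'.1 := congrArg (fun z => z.2.1) he
      subst e1
      refine ⟨(QuotientGroup.mk g, y), hcy, Subtype.ext ?_⟩
      rw [hfq, e2, smul_inv_smul]
  have hfe : IsClosedEmbedding f :=
    IsClosedEmbedding.of_continuous_injective_isClosedMap hfc hfi hfcl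
  have hfs : ∀ w : W, w ∈ range f := by
    intro w
    obtain ⟨g, hg⟩ := hstab w.1 w.2.1 w.2.2
    refine ⟨(QuotientGroup.mk g, ⟨g⁻¹ • w.1, ⟨hEi _ _ w.2.1, fun h hh => (hg h).mpr hh⟩,
      hninv _ _ w.2.2⟩), Subtype.ext ?_⟩
    rw [hfq, smul_inv_smul]
  let k : W → (X.sub E hE hEi).X := fun w => ⟨w.1, w.2.1⟩
  have hkc : Continuous k := continuous_subtype_val.subtype_mk _
  have hke : IsEmbedding k :=
    IsEmbedding.of_comp hkc (g := Subtype.val) continuous_subtype_val .subtypeVal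
  have hrange : range (k ∘ f) = {w : (X.sub E hE hEi).X | w.1 ∉ E'} := by
    ext w
    constructor
    · rintro ⟨p, rfl⟩
      exact (f p).2.2
    · intro hw
      obtain ⟨p, hp⟩ := hfs ⟨w.1, w.2, hw⟩
      exact ⟨p, by rw [Function.comp_apply, hp]; rfl⟩
  have hopen : IsOpen (range (k ∘ f)) := by
    rw [hrange]
    exact (hE'.preimage continuous_subtype_val).isOpen_compl
  refine ⟨Ys, inferInstance, hYlc, inferInstance, inferInstance, k ∘ f,
    ⟨hke.comp hfe.isEmbedding, hopen⟩, ?_, hrange⟩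
  · rintro g ⟨c, y⟩
    obtain ⟨g', rfl⟩ := QuotientGroup.mk_surjective c
    refine Subtype.ext ?_
    change (f (QuotientGroup.mk (g * g'), y)).1 = g • (f (QuotientGroup.mk g', y)).1
    rw [hfq, hfq, mul_smul]

end Pool.Agent.Q27.GT
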